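import Mathlib
import Pool.Agent.H28.R4Lower

set_option autoImplicit false

namespace Pool.Agent.Results.MP_be36ad_co.ExactValue

open Finset

/-- `D` contains a (not necessarily induced) subdigraph isomorphic to `F`. -/
def Contains {W V : Type} (F : Digraph W) (D : Digraph V) : Prop :=
  ∃ f : W → V, Function.Injective f ∧ ∀ i j, F.Adj i j → D.Adj (f i) (f j)

/-- The out-degree of a vertex. -/
noncomputable def outDegree {V : Type} (D : Digraph V) (v : V) : ℕ := {w | D.Adj v w}.ncard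

/-- The tournament `R₄` on the vertices `1,2,3,4` (here `0,1,2,3`)
with the arcs `12, 23, 34, 41, 13, 24`. -/
def R4 : Digraph (Fin 4) where
  Adj i j := (i = 0 ∧ j = 1) ∨ (i = 1 ∧ j = 2) ∨ (i = 2 ∧ j = 3) ∨ (i = 3 ∧ j = 0) ∨
    (i = 0 ∧ j = 2) ∨ (i = 1 ∧ j = 3)

/-- The set of all numbers `∑ d⁺(v)²`, over the loopless `F`-free digraphs `D` with vertex set
`Fin m`.  Its greatest element is `ex₂⁺(m,F)`. -/
def degreeSquareSums {W : Type} (m : ℕ) (F : Digraph W) : Set ℕ :=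
  {s | ∃ D : Digraph (Fin m), (∀ v, ¬ D.Adj v v) ∧ ¬ Contains F D ∧
    s = ∑ v, outDegree D v ^ 2}

lemma outDegree_eq {m : ℕ} (D : Digraph (Fin m)) (v : Fin m) :
    outDegree D v = Pool.Agent.H28.R4.od D.Adj v := by
  classical
  unfold outDegree Pool.Agent.H28.R4.od
  rw [Set.ncard_eq_toFinset_card']
  congr 1
  ext w
  simp

lemma free_iff {V : Type} (D : Digraph V) (irr : ∀ v, ¬ D.Adj v v) :
    ¬ Contains R4 D ↔ Pool.Agent.H28.R4.Fr D.Adj := by
  constructor
  · intro h a b c d h1 h2 h3 h4 h5 h6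
    apply h
    have n1 : a ≠ b := fun e => irr b (e ▸ h1)
    have n2 : b ≠ c := fun e => irr c (e ▸ h2)
    have n3 : c ≠ d := fun e => irr d (e ▸ h3)
    have n4 : d ≠ a := fun e => irr a (e ▸ h4)
    have n5 : a ≠ c := fun e => irr c (e ▸ h5)
    have n6 : b ≠ d := fun e => irr d (e ▸ h6)
    refine ⟨![a, b, c, d], ?_, ?_⟩
    · intro i j hij
      fin_cases i <;> fin_cases j <;> simp_all
    · intro i j hij
      unfold R4 at hij
      simp only at hij
      rcases hij with ⟨rfl, rfl⟩ | ⟨rfl, rfl⟩ | ⟨rfl, rfl⟩ | ⟨rfl, rfl⟩ | ⟨rfl, rfl⟩ | ⟨rfl, rfl⟩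
      · exact h1
      · exact h2
      · exact h3
      · exact h4
      · exact h5
      · exact h6
  · rintro h ⟨f, _, hf⟩
    exact h (f 0) (f 1) (f 2) (f 3) (hf 0 1 (by simp [R4])) (hf 1 2 (by simp [R4]))
      (hf 2 3 (by simp [R4])) (hf 3 0 (by simp [R4])) (hf 0 2 (by simp [R4]))
      (hf 1 3 (by simp [R4]))

lemma upper_mem {m s : ℕ} (hs : s ∈ degreeSquareSums m R4) : s ≤ Pool.Agent.H28.R4.g m := by
  obtain ⟨D, irr, hF, rfl⟩ := hs
  have h := Pool.Agent.H28.R4.upper m (Fin m) D.Adj (by simp) irr ((free_iff D irr).1 hF)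
  unfold Pool.Agent.H28.R4.fs at h
  simp only [outDegree_eq]
  exact h

lemma lower_mem {m : ℕ} (E : Fin m → Fin m → Prop) (irr : ∀ v, ¬ E v v)
    (hF : Pool.Agent.H28.R4.Fr E) : Pool.Agent.H28.R4.fs E ∈ degreeSquareSums m R4 := by
  refine ⟨⟨E⟩, irr, (free_iff ⟨E⟩ irr).2 hF, ?_⟩
  simp only [outDegree_eq]
  rfl

/-- **Exact value of `ex₂⁺(m, R₄)` for every `m`.** -/
theorem result (a : ℕ) :
    IsGreatest (degreeSquareSums (3 * a) R4) (12 * a ^ 3) ∧
    IsGreatest (degreeSquareSums (3 * a + 1) R4) (3 * a * (2 * a + 1) ^ 2) ∧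
    IsGreatest (degreeSquareSums (3 * a + 2) R4)
      (a * (2 * a + 2) ^ 2 + 2 * (a + 1) * (2 * a + 1) ^ 2) := by
  refine ⟨⟨?_, ?_⟩, ⟨?_, ?_⟩, ⟨?_, ?_⟩⟩
  · rw [← Pool.Agent.H28.R4.tri_fs0 a]
    exact lower_mem _ (fun v h => h rfl) Pool.Agent.H28.R4.tri_free
  · intro s hs
    have := upper_mem hs
    unfold Pool.Agent.H28.R4.g at this
    have h1 : (3 * a) % 3 = 0 := by omega
    have h2 : (3 * a) / 3 = a := by omega
    rw [h1, h2] at this
    simpa using this
  · rw [← Pool.Agent.H28.R4.tri_fs1 a]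
    exact lower_mem _ (fun v => Pool.Agent.H28.R4.triSink_irr a v.val)
      Pool.Agent.H28.R4.triSink_free
  · intro s hs
    have := upper_mem hs
    unfold Pool.Agent.H28.R4.g at this
    have h1 : (3 * a + 1) % 3 = 1 := by omega
    have h2 : (3 * a + 1) / 3 = a := by omega
    rw [h1, h2] at this
    simpa using this
  · rw [← Pool.Agent.H28.R4.tri_fs2 a]
    exact lower_mem _ (fun v h => h rfl) Pool.Agent.H28.R4.tri_free
  · intro s hs
    have := upper_mem hs
    unfold Pool.Agent.H28.R4.g at this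
    have h1 : (3 * a + 2) % 3 = 2 := by omega
    have h2 : (3 * a + 2) / 3 = a := by omega
    rw [h1, h2] at this
    simpa using this

end Pool.Agent.Results.MP_be36ad_co.ExactValue
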